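import Pool.Agent.H664.QM.Stm

/-!
Project QM (helper664), job TRANSPORT: field automorphisms of `ℂ` preserve the hypotheses on a variety.
-/

set_option autoImplicit false

namespace Pool.Agent.H627.QM

open MvPolynomial Pool.Agent.W996.EC Pool.Agent.Q72.EG Pool.Agent.H664.QM

section

variable (σ : ℂ ≃+* ℂ)

/-- the action of `σ` on the coefficients -/
noncomputable def mp (ι : Type) : MvPolynomial ι ℂ ≃+* MvPolynomial ι ℂ := MvPolynomial.mapEquiv ι σ

lemma mp_apply {ι : Type} (f : MvPolynomial ι ℂ) : mp σ ι f = MvPolynomial.map (σ : ℂ →+* ℂ) f := rfl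

lemma eval_mp {ι : Type} (p : ι → ℂ) (f : MvPolynomial ι ℂ) :
    eval (fun i => σ (p i)) (mp σ ι f) = σ (eval p f) := by
  rw [mp_apply, eval_map]
  have := MvPolynomial.eval₂_comp (σ : ℂ →+* ℂ) p f
  simpa [Function.comp_def] using this.symm

lemma eval_mp_symm {ι : Type} (p : ι → ℂ) (f : MvPolynomial ι ℂ) :
    σ (eval p ((mp σ ι).symm f)) = eval (fun i => σ (p i)) f := by
  rw [← eval_mp, RingEquiv.apply_symm_apply]

lemma vars_mp_symm {ι : Type} (f : MvPolynomial ι ℂ) : ((mp σ ι).symm f).vars = f.vars := by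
  have h : (mp σ ι ((mp σ ι).symm f)).vars = ((mp σ ι).symm f).vars := by
    rw [mp_apply]
    exact MvPolynomial.vars_map_of_injective _ (σ : ℂ →+* ℂ).injective
  rw [← h, RingEquiv.apply_symm_apply]

lemma dvd_mp {ι : Type} (P f : MvPolynomial ι ℂ) : mp σ ι P ∣ f ↔ P ∣ (mp σ ι).symm f := by
  constructor
  · intro h
    have := map_dvd (mp σ ι).symm h
    rwa [RingEquiv.symm_apply_apply] at this
  · intro h
    have := map_dvd (mp σ ι) h
    rwa [RingEquiv.apply_symm_apply] at this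

variable {n : ℕ} {V V' : Set (Fin n ⊕ Fin n → ℂ)}

lemma mem_symm (h : ∀ p, p ∈ V ↔ (fun i => σ (p i)) ∈ V') (p : Fin n ⊕ Fin n → ℂ) :
    p ∈ V' ↔ (fun i => σ.symm (p i)) ∈ V := by
  rw [h]
  simp

lemma vanish (h : ∀ p, p ∈ V ↔ (fun i => σ (p i)) ∈ V') (f : MvPolynomial (Fin n ⊕ Fin n) ℂ) :
    (∀ p ∈ V', eval p f = 0) ↔ ∀ p ∈ V, eval p ((mp σ _).symm f) = 0 := by
  constructor
  · intro hf p hp
    have h1 := hf _ ((h p).1 hp)
    rw [← eval_mp_symm] at h1
    exact (map_eq_zero_iff σ σ.injective).1 h1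
  · intro hf p hp
    have h1 := hf _ ((mem_symm σ h p).1 hp)
    have h2 := eval_mp_symm σ (fun i => σ.symm (p i)) f
    rw [h1, map_zero] at h2
    simpa using h2.symm

lemma indep (h : ∀ p, p ∈ V ↔ (fun i => σ (p i)) ∈ V') (J : Finset (Fin n ⊕ Fin n))
    (hJ : IndepV V J) : IndepV V' J := by
  intro f hf hv
  have h1 := hJ ((mp σ _).symm f) (by rw [vars_mp_symm]; exact hf) ((vanish σ h f).1 hv)
  exact (map_eq_zero_iff (mp σ _).symm (mp σ _).symm.injective).1 h1

lemma indep' (h : ∀ p, p ∈ V ↔ (fun i => σ (p i)) ∈ V') (J : Finset (Fin n ⊕ Fin n)) :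
    IndepV V J ↔ IndepV V' J :=
  ⟨indep σ h J, indep σ.symm (V := V') (V' := V) (mem_symm σ h) J⟩

end

theorem transport : S_transport := by
  intro n σ V V' h hG
  obtain ⟨I, P, hI, hd, hP, ha, hm⟩ := hG
  refine ⟨I.comap ((mp σ (Fin n ⊕ Fin n)).symm : MvPolynomial (Fin n ⊕ Fin n) ℂ →+* _), mp σ (Fin n) P,
    ⟨?_, ?_, ?_⟩, ⟨?_, ?_⟩, ⟨?_, ?_⟩, ?_, ?_⟩
  · -- prime
    have := hI.prime
    infer_instance
  · -- points
    ext p
    rw [mem_symm σ h, hI.points]
    simp only [Set.mem_ofPred_eq]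
    refine and_congr ⟨fun hf f hfI => ?_, fun hf f hfI => ?_⟩ (forall_congr' fun j => ?_)
    · have h1 := hf _ hfI
      have h2 := eval_mp_symm σ (fun i => σ.symm (p i)) f
      have h3 : eval (fun i => σ.symm (p i)) ((mp σ _).symm f) = 0 := h1
      rw [h3, map_zero] at h2
      simpa using h2.symm
    · have h1 := hf (mp σ _ f) (by
        rw [Ideal.mem_comap]
        show (mp σ _).symm (mp σ _ f) ∈ I
        rw [RingEquiv.symm_apply_apply]
        exact hfI)
      have h2 := eval_mp σ (fun i => σ.symm (p i)) f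
      simp only [RingEquiv.apply_symm_apply] at h2
      rw [h1] at h2
      exact (map_eq_zero_iff σ σ.injective).1 h2.symm
    · rw [not_iff_not]
      exact map_eq_zero_iff σ.symm σ.symm.injective
  · obtain ⟨p, hp⟩ := hI.nonempty
    exact ⟨_, (h p).1 hp⟩
  · obtain ⟨⟨J, hJ1, hJ2⟩, -⟩ := hd
    exact ⟨J, hJ1, (indep' σ h J).1 hJ2⟩
  · intro J hJ hc
    exact hd.2 J hJ ((indep' σ h J).2 hc)
  · exact (MulEquiv.irreducible_iff (mp σ (Fin n))).2 hP.1
  · intro f
    rw [dvd_mp, ← hP.2]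
    constructor
    · intro hf p hp
      have h1 := hf _ ((h p).1 hp)
      have h2 := eval_mp_symm σ (fun l => p (Sum.inl l)) f
      rw [h1] at h2
      exact (map_eq_zero_iff σ σ.injective).1 h2
    · intro hf p hp
      have h1 := hf _ ((mem_symm σ h p).1 hp)
      have h2 := eval_mp_symm σ (fun l => σ.symm (p (Sum.inl l))) f
      rw [h1, map_zero] at h2
      simpa using h2.symm
  · intro m hm0 c
    obtain ⟨p, hp, hpc⟩ := ha m hm0 (σ.symm c)
    refine ⟨_, (h p).1 hp, fun hc => hpc ?_⟩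
    apply σ.injective
    rw [map_sum, RingEquiv.apply_symm_apply, ← hc]
    refine Finset.sum_congr rfl fun j _ => ?_
    rw [map_mul, map_intCast]
  · intro m hm0 hA
    refine hm m hm0 ?_
    obtain ⟨A, ⟨b, hb⟩, hA⟩ := hA
    refine ⟨A.map ((mp σ (Fin n)).symm : MvPolynomial (Fin n) ℂ →+* _), ⟨b, ?_⟩, fun p hp => ?_⟩
    · rw [Polynomial.coeff_map]
      intro hc
      exact hb ((dvd_mp σ _ _).2 hc)
    · have h1 := hA _ ((h p).1 hp)
      apply σ.injective
      rw [map_zero, ← h1, Polynomial.map_map, Polynomial.eval_map, Polynomial.eval_map]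
      have h2 := Polynomial.hom_eval₂ A ((eval fun l => p (Sum.inl l)).comp
        ((mp σ (Fin n)).symm : MvPolynomial (Fin n) ℂ →+* MvPolynomial (Fin n) ℂ)) (σ : ℂ →+* ℂ)
        (∏ l, p (Sum.inr l) ^ m l)
      have h3 : (σ : ℂ →+* ℂ).comp ((eval fun l => p (Sum.inl l)).comp
        ((mp σ (Fin n)).symm : MvPolynomial (Fin n) ℂ →+* MvPolynomial (Fin n) ℂ)) =
          eval fun l => σ (p (Sum.inl l)) := by
        apply RingHom.ext
        intro q
        exact eval_mp_symm σ _ q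
      rw [h3] at h2
      refine Eq.trans h2 ?_
      congr 1
      show σ (∏ l, p (Sum.inr l) ^ m l) = _
      rw [map_prod]
      exact Finset.prod_congr rfl fun l _ => map_zpow₀ σ _ _

end Pool.Agent.H627.QM
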